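import Pool.Agent.helper66.WD.Spec

set_option autoImplicit false

namespace Pool.Agent.WD

universe u

open MvPolynomial

lemma CMP_one {B : Type*} [CommRing B] {d : B → B} (hd : IsDer d) : d 1 = 0 := by
  have h := hd.mul 1 1
  rw [mul_one, one_mul] at h
  have h2 : d 1 + 0 = d 1 + d 1 := by rw [add_zero]; exact h
  exact (add_left_cancel h2).symm

/-- `u * d (u ^ n) = n * u ^ n * d u` -/
lemma CMP_pow {B : Type*} [CommRing B] {d : B → B} (hd : IsDer d) (u : B) (n : ℕ) :
    u * d (u ^ n) = (n : B) * u ^ n * d u := by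
  induction n with
  | zero => rw [pow_zero, CMP_one hd]; push_cast; ring
  | succ n ih =>
    rw [pow_succ, hd.mul, mul_add]
    have : u * (u * d (u ^ n)) = u * ((n : B) * u ^ n * d u) := by rw [ih]
    push_cast
    linear_combination this

lemma CMP_powb {B : Type*} [CommRing B] {d : B → B} (hd : IsDer d) (u b : B) (n : ℕ) :
    u * d (u ^ n * b) = u ^ n * (u * d b + (n : B) * d u * b) := by
  rw [hd.mul, mul_add]
  linear_combination b * CMP_pow hd u n

lemma CMP_R {B : Type*} [CommRing B] {d : B → B} (hd : IsDer d) (Lam u rt ri ht hi : B) (N : ℕ) :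
    (u ^ N * rt) * ((u * Lam) * d (u ^ N * ri) + (u * hi) * (u ^ N * ri)) -
      ((u * Lam) * d (u ^ N * rt) + (u * ht) * (u ^ N * rt)) * (u ^ N * ri) =
    u ^ (2 * N + 1) * (rt * (Lam * d ri + hi * ri) - (Lam * d rt + ht * rt) * ri) := by
  have e1 := CMP_powb hd u ri N
  have e2 := CMP_powb hd u rt N
  have e3 : u ^ (2 * N + 1) = u ^ N * u ^ N * u := by ring
  rw [e3]
  linear_combination (u ^ N * rt * Lam) * e1 - (Lam * (u ^ N * ri)) * e2

lemma CMP_C {B : Type*} [CommRing B] {d : B → B} (hd : IsDer d) (Lam u rt c c' ht : B) (N : ℕ) :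
    (u ^ N * rt) * (u * Lam) * (d (u ^ N * c) + u ^ N * c') -
      ((u * Lam) * d (u ^ N * rt) + (u * ht) * (u ^ N * rt)) * (u ^ N * c) =
    u ^ (2 * N + 1) * (rt * Lam * (d c + c') - (Lam * d rt + ht * rt) * c) := by
  have e1 := CMP_powb hd u c N
  have e2 := CMP_powb hd u rt N
  have e3 : u ^ (2 * N + 1) = u ^ N * u ^ N * u := by ring
  rw [e3]
  linear_combination (u ^ N * rt * Lam) * e1 - (Lam * (u ^ N * c)) * e2

theorem CMP : CMP_stmt.{u} := by
  intro B B' _ _ σ d d' hd hd' hσ c Lam Lam' u h h' hLam hh L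
  induction L with
  | nil =>
    constructor
    · intro i
      simp [run]
    · intro m
      simp only [run, List.length_nil, pow_zero, tsub_self, one_mul]
      split_ifs
      · exact map_one σ
      · exact map_zero σ
  | cons t L ih =>
    obtain ⟨ih1, ih2⟩ := ih
    obtain ⟨N, hN⟩ : ∃ N, N = 2 ^ L.length - 1 := ⟨_, rfl⟩
    have hN' : 2 ^ (t :: L).length - 1 = 2 * N + 1 := by
      have h1 : 1 ≤ 2 ^ L.length := Nat.one_le_two_pow
      rw [List.length_cons, pow_succ, hN]
      omega
    rw [hN']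
    rw [← hN] at ih1 ih2
    constructor
    · intro i
      show σ (stepR d Lam h t (run d Lam h L).1 i) = u ^ (2 * N + 1) * stepR d' Lam' h' t (run d' Lam' h' L).1 i
      unfold stepR
      rw [map_sub, map_mul, map_add, map_mul, map_mul, map_mul, map_add, map_mul, map_mul, hσ, hσ, ih1, ih1, hLam, hh, hh]
      exact CMP_R hd' _ _ _ _ _ _ _
    · intro m
      show σ (stepC d Lam h t (run d Lam h L).1 (run d Lam h L).2 m) =
        u ^ (2 * N + 1) * stepC d' Lam' h' t (run d' Lam' h' L).1 (run d' Lam' h' L).2 m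
      have h0 : σ (if m = 0 then 0 else (run d Lam h L).2 (m - 1)) =
          u ^ N * (if m = 0 then 0 else (run d' Lam' h' L).2 (m - 1)) := by
        split_ifs
        · rw [map_zero, mul_zero]
        · exact ih2 _
      unfold stepC
      rw [map_sub, map_mul, map_mul, map_add, h0, map_mul, map_add, map_mul, map_mul, hσ, hσ, ih1, ih2, hLam, hh]
      exact CMP_C hd' _ _ _ _ _ _ _

end Pool.Agent.WD
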