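import Pool.Agent.helper66.WD.Spec

set_option autoImplicit false

namespace Pool.Agent.WD

universe u

open MvPolynomial

lemma KIL_zero {B : Type*} [CommRing B] {d : B → B} (hd : IsDer d) : d 0 = 0 := by
  have h := hd.add 0 0
  rw [add_zero] at h
  have h2 : d 0 + 0 = d 0 + d 0 := by rw [add_zero]; exact h
  exact (add_left_cancel h2).symm

lemma KIL_top {B : Type*} [CommRing B] {d : B → B} (hd : IsDer d) {c : ℕ} (Lam : B) (h : Fin c → B)
    (L : List (Fin c)) : ∀ m, L.length < m → (run d Lam h L).2 m = 0 := by
  induction L with
  | nil =>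
    intro m hm
    simp only [run]
    rw [if_neg]
    simp only [List.length_nil] at hm
    omega
  | cons t L ih =>
    intro m hm
    rw [List.length_cons] at hm
    show stepC d Lam h t (run d Lam h L).1 (run d Lam h L).2 m = 0
    unfold stepC
    rw [if_neg (by omega), ih m (by omega), ih (m - 1) (by omega), KIL_zero hd]
    ring

theorem KIL : KIL_stmt.{u} := by
  intro B _ _ d hd c Lam h hLam
  have key : ∀ s, s ≤ c → ∃ L : List (Fin c), L.length ≤ s ∧
      (∀ i : Fin c, i.val < s → (run d Lam h L).1 i = 0) ∧ (run d Lam h L).2 L.length ≠ 0 := by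
    intro s
    induction s with
    | zero =>
      intro _
      refine ⟨[], le_refl _, ?_, ?_⟩
      · intro i hi
        omega
      · simp [run]
    | succ s ih =>
      intro hs
      obtain ⟨L, h1, h2, h3⟩ := ih (by omega)
      by_cases ht : (run d Lam h L).1 ⟨s, hs⟩ = 0
      · refine ⟨L, by omega, ?_, h3⟩
        intro i hi
        rcases Nat.lt_or_ge i.val s with hlt | hge
        · exact h2 i hlt
        · have hi2 : i = ⟨s, hs⟩ := Fin.ext (by simp only; omega)
          rw [hi2]
          exact ht
      · refine ⟨⟨s, hs⟩ :: L, ?_, ?_, ?_⟩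
        · rw [List.length_cons]
          omega
        · intro i hi
          show stepR d Lam h ⟨s, hs⟩ (run d Lam h L).1 i = 0
          unfold stepR
          rcases Nat.lt_or_ge i.val s with hlt | hge
          · rw [h2 i hlt, KIL_zero hd]
            ring
          · have hi2 : i = ⟨s, hs⟩ := Fin.ext (by simp only; omega)
            rw [hi2]
            ring
        · rw [List.length_cons]
          show stepC d Lam h ⟨s, hs⟩ (run d Lam h L).1 (run d Lam h L).2 (L.length + 1) ≠ 0
          unfold stepC
          rw [if_neg (Nat.succ_ne_zero _), KIL_top hd Lam h L (L.length + 1) (by omega), KIL_zero hd,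
            Nat.add_sub_cancel, zero_add, mul_zero, sub_zero]
          exact mul_ne_zero (mul_ne_zero ht hLam) h3
  obtain ⟨L, h1, h2, h3⟩ := key c (le_refl _)
  exact ⟨L, h1, fun i => h2 i i.isLt, h3⟩

end Pool.Agent.WD
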