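import Pool.Agent.helper66.WD.Spec

set_option autoImplicit false

namespace Pool.Agent.WD

universe u

open MvPolynomial

lemma REL_zero {B : Type*} [CommRing B] {d : B → B} (hd : IsDer d) : d 0 = 0 := by
  have h := hd.add 0 0
  rw [add_zero] at h
  have h2 : d 0 + 0 = d 0 + d 0 := by rw [add_zero]; exact h
  exact (add_left_cancel h2).symm

lemma REL_sum {B : Type*} [CommRing B] {d : B → B} (hd : IsDer d) {ι : Type*} (s : Finset ι) (f : ι → B) :
    d (∑ i ∈ s, f i) = ∑ i ∈ s, d (f i) := by
  classical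
  induction s using Finset.induction_on with
  | empty => rw [Finset.sum_empty, Finset.sum_empty, REL_zero hd]
  | insert a s ha ih => rw [Finset.sum_insert ha, Finset.sum_insert ha, hd.add, ih]

lemma REL_top {B : Type*} [CommRing B] {d : B → B} (hd : IsDer d) {c : ℕ} (Lam : B) (h : Fin c → B)
    (L : List (Fin c)) : ∀ m, L.length < m → (run d Lam h L).2 m = 0 := by
  induction L with
  | nil =>
    intro m hm
    simp only [run]
    rw [if_neg]
    simp only [List.length_nil] at hm
    omega
  | cons t L ih =>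
    intro m hm
    rw [List.length_cons] at hm
    show stepC d Lam h t (run d Lam h L).1 (run d Lam h L).2 m = 0
    unfold stepC
    rw [if_neg (by omega), ih m (by omega), ih (m - 1) (by omega), REL_zero hd]
    ring

theorem REL : REL_stmt.{u} := by
  intro B _ d hd c Lam h E hE L
  refine ⟨REL_top hd Lam h L, ?_⟩
  obtain ⟨G, hG⟩ : ∃ G, G = ∑ i, E i := ⟨_, rfl⟩
  rw [← hG]
  induction L with
  | nil =>
    simp [run, hG]
  | cons t L ih =>
    have htop := REL_top hd Lam h L
    obtain ⟨Cf, hCf⟩ : ∃ Cf, Cf = (run d Lam h L).2 := ⟨_, rfl⟩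
    obtain ⟨ρ, hρ⟩ : ∃ ρ, ρ = (run d Lam h L).1 := ⟨_, rfl⟩
    rw [← hCf] at ih htop
    rw [← hρ] at ih
    obtain ⟨Y, hY⟩ : ∃ Y, Y = ∑ i, ρ i * E i := ⟨_, rfl⟩
    rw [← hY] at ih
    obtain ⟨n, hn⟩ : ∃ n, n = L.length := ⟨_, rfl⟩
    rw [← hn] at ih htop
    have hdY1 : d Y = ∑ m ∈ Finset.range (n + 1), (Cf m * d^[m + 1] G + d^[m] G * d (Cf m)) := by
      rw [← ih, REL_sum hd]
      apply Finset.sum_congr rfl
      intro m _
      rw [hd.mul, Function.iterate_succ_apply']
    have hdY2 : Lam * d Y = ∑ i, (Lam * d (ρ i) + h i * ρ i) * E i := by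
      rw [hY, REL_sum hd, Finset.mul_sum]
      apply Finset.sum_congr rfl
      intro i _
      rw [hd.mul]
      linear_combination (ρ i) * hE i
    have hright : ∑ i, (run d Lam h (t :: L)).1 i * E i =
        ρ t * (Lam * d Y) - (Lam * d (ρ t) + h t * ρ t) * Y := by
      have e1 : ∀ i, (run d Lam h (t :: L)).1 i * E i =
          ρ t * ((Lam * d (ρ i) + h i * ρ i) * E i) - (Lam * d (ρ t) + h t * ρ t) * (ρ i * E i) := by
        intro i
        show stepR d Lam h t (run d Lam h L).1 i * E i = _
        rw [← hρ]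
        unfold stepR
        ring
      rw [Finset.sum_congr rfl (fun i _ => e1 i), Finset.sum_sub_distrib, ← Finset.mul_sum, ← Finset.mul_sum,
        hdY2, ← hY]
    have hleft : ∑ m ∈ Finset.range ((t :: L).length + 1), (run d Lam h (t :: L)).2 m * d^[m] G =
        ρ t * (Lam * d Y) - (Lam * d (ρ t) + h t * ρ t) * Y := by
      rw [List.length_cons, ← hn]
      have e1 : ∀ m, (run d Lam h (t :: L)).2 m * d^[m] G =
          ρ t * Lam * (d^[m] G * d (Cf m)) + ρ t * Lam * ((if m = 0 then 0 else Cf (m - 1)) * d^[m] G) -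
          (Lam * d (ρ t) + h t * ρ t) * (Cf m * d^[m] G) := by
        intro m
        show stepC d Lam h t (run d Lam h L).1 (run d Lam h L).2 m * d^[m] G = _
        rw [← hρ, ← hCf]
        unfold stepC
        ring
      rw [Finset.sum_congr rfl (fun m _ => e1 m), Finset.sum_sub_distrib, Finset.sum_add_distrib,
        ← Finset.mul_sum, ← Finset.mul_sum, ← Finset.mul_sum]
      have s1 : ∑ m ∈ Finset.range (n + 1 + 1), d^[m] G * d (Cf m) =
          ∑ m ∈ Finset.range (n + 1), d^[m] G * d (Cf m) := by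
        rw [Finset.sum_range_succ, htop (n + 1) (by omega), REL_zero hd, mul_zero, add_zero]
      have s2 : ∑ m ∈ Finset.range (n + 1 + 1), (if m = 0 then 0 else Cf (m - 1)) * d^[m] G =
          ∑ m ∈ Finset.range (n + 1), Cf m * d^[m + 1] G := by
        rw [Finset.sum_range_succ']
        simp
      have s3 : ∑ m ∈ Finset.range (n + 1 + 1), Cf m * d^[m] G = Y := by
        rw [Finset.sum_range_succ, htop (n + 1) (by omega), zero_mul, add_zero, ih]
      rw [s1, s2, s3, hdY1, Finset.sum_add_distrib]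
      ring
    rw [hleft, hright]

end Pool.Agent.WD
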